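import Pool.Agent.Helper43.AM.RatLim
import Pool.Agent.Helper92.LW.Defs

/-!
# LW, block W3a: rational centres and radii are enough for the limits of the means of test functions
-/

open MeasureTheory Real Set Filter Topology

set_option autoImplicit false

namespace Pool.Agent.Helper43.LW

open Pool.Agent.Helper22.AE
open Pool.Agent.Helper22.AC (cntc)
open Pool.Agent.Helper92.LW
open Pool.Agent.Helper43.AM (disc near2 cntc_box' cntc_meas cntc_lim cntc_eq shift_int)

/-- the normalized error term -/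
noncomputable def G (H φ : ℝ → ℝ) (c : ℝ × ℝ) (R : ℝ) : ℝ := φ ((cntc H c R - area H * R ^ 2) / sqrt R)

theorem G_meas (H : ℝ → ℝ) {φ : ℝ → ℝ} (hφ : Continuous φ) (c : ℝ × ℝ) : Measurable (G H φ c) := by
  have h2 : Measurable fun R : ℝ => area H * R ^ 2 := by fun_prop
  exact hφ.measurable.comp (((cntc_meas H c).sub h2).div Real.continuous_sqrt.measurable)

/-- approximation by rational data -/
theorem approx {H : ℝ → ℝ} (hH : ContDiff ℝ 2 H) (hp : Function.Periodic H (2 * π)) (hrho : ∀ θ, 0 < H θ + deriv (deriv H) θ)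
    {φ : ℝ → ℝ} (hφ : Continuous φ) {X : ℝ} (hX : 1 ≤ X) (c : ℝ × ℝ) : ∃ (q : ℕ → ℚ) (d : ℕ → ℚ × ℚ), (∀ j, X ≤ q j) ∧
      Tendsto (fun j => (q j : ℝ)⁻¹ * ∫ R in Icc (q j : ℝ) (2 * q j), G H φ (((d j).1 : ℝ), ((d j).2 : ℝ)) R) atTop
        (𝓝 (X⁻¹ * ∫ R in Icc X (2 * X), G H φ c R)) := by
  classical
  obtain ⟨v, r, hr0, hv⟩ := disc hH hp hrho
  set t : ℕ → ℝ := fun j => 1 / (2 * ((j : ℝ) + 1)) with htdef
  have ht0 : ∀ j, 0 < t j := fun j => by rw [htdef]; positivity
  have ht2 : ∀ j, t j ≤ 1 / 2 := fun j => by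
    rw [htdef]
    simp only
    rw [div_le_div_iff₀ (by positivity) (by norm_num)]
    have : (0 : ℝ) ≤ j := Nat.cast_nonneg j
    linarith
  have htt : Tendsto t atTop (𝓝 0) := by
    have h1 := (tendsto_one_div_add_atTop_nhds_zero_nat (𝕜 := ℝ)).const_mul (1 / 2 : ℝ)
    rw [mul_zero] at h1
    refine h1.congr fun j => ?_
    rw [htdef]
    simp only
    field_simp
  choose d hd hdc1 hdc2 using fun j => near2 hr0 hv (ht0 j) c
  choose q hq1 hq2 using fun j => exists_rat_btwn (show X < X + t j by linarith [ht0 j])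
  have hX0 : 0 < X := by linarith
  refine ⟨q, d, fun j => (hq1 j).le, ?_⟩
  -- convergence of the centres
  have hconv : ∀ (x : ℕ → ℝ) (y z : ℝ), (∀ j, |x j - y| ≤ t j * (|z| + r)) → Tendsto x atTop (𝓝 y) := by
    intro x y z h
    rw [tendsto_iff_norm_sub_tendsto_zero]
    have h1 := htt.mul_const (|z| + r)
    rw [zero_mul] at h1
    exact squeeze_zero (fun j => norm_nonneg _) (fun j => by rw [Real.norm_eq_abs]; exact h j) h1
  have hd1 := hconv _ _ _ hdc1
  have hd2 := hconv _ _ _ hdc2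
  set K : ℝ := |c.1| + |c.2| + |v.1| + |v.2| + r with hK
  have hc1 : |c.1| ≤ K := by
    have := abs_nonneg c.2; have := abs_nonneg v.1; have := abs_nonneg v.2; linarith
  have hc2 : |c.2| ≤ K := by
    have := abs_nonneg c.1; have := abs_nonneg v.1; have := abs_nonneg v.2; linarith
  have hbd : ∀ (x y z : ℝ) (j : ℕ), |x - y| ≤ t j * (|z| + r) → |y| + |z| + r ≤ K → |x| ≤ K := by
    intro x y z j h1 h2
    have h3 : t j * (|z| + r) ≤ 1 * (|z| + r) :=
      mul_le_mul_of_nonneg_right (by linarith [ht2 j]) (by positivity)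
    have h4 : |x| ≤ |x - y| + |y| := by
      calc |x| = |(x - y) + y| := by ring_nf
        _ ≤ |x - y| + |y| := abs_add_le _ _
    linarith
  have hdK1 : ∀ j, |((d j).1 : ℝ)| ≤ K := fun j => hbd _ _ _ j (hdc1 j) (by
    have := abs_nonneg c.2; have := abs_nonneg v.2; linarith)
  have hdK2 : ∀ j, |((d j).2 : ℝ)| ≤ K := fun j => hbd _ _ _ j (hdc2 j) (by
    have := abs_nonneg c.1; have := abs_nonneg v.1; linarith)
  obtain ⟨B, hB⟩ := cntc_box' H K (3 * X + 1)
  -- the integrals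
  have hint : ∀ j, ∫ R in Icc (q j : ℝ) (2 * q j), G H φ (((d j).1 : ℝ), ((d j).2 : ℝ)) R =
      ∫ R in Icc (X / 2) (3 * X), (Icc ((q j : ℝ) - t j) (2 * q j - t j)).indicator
        (fun R => G H φ (((d j).1 : ℝ), ((d j).2 : ℝ)) (R + t j)) R := by
    intro j
    have h1 := hq1 j
    have h2 := hq2 j
    have h3 := ht2 j
    have h4 := ht0 j
    rw [setIntegral_indicator measurableSet_Icc, Set.inter_eq_right.2 (Icc_subset_Icc (by linarith) (by linarith)),
      shift_int (fun R => G H φ (((d j).1 : ℝ), ((d j).2 : ℝ)) R) (by linarith) (t j)]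
    congr 3 <;> ring
  have hint' : ∫ R in Icc X (2 * X), G H φ c R =
      ∫ R in Icc (X / 2) (3 * X), (Icc X (2 * X)).indicator (fun R => G H φ c R) R := by
    rw [setIntegral_indicator measurableSet_Icc, Set.inter_eq_right.2 (Icc_subset_Icc (by linarith) (by linarith))]
  simp_rw [hint, hint']
  have hqX : Tendsto (fun j => (q j : ℝ)) atTop (𝓝 X) := by
    have h1 := (tendsto_const_nhds (x := X)).add htt
    rw [add_zero] at h1
    exact tendsto_of_tendsto_of_tendsto_of_le_of_le tendsto_const_nhds h1 (fun j => (hq1 j).le) (fun j => (hq2 j).le)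
  refine (hqX.inv₀ hX0.ne').mul ?_
  obtain ⟨M, hM⟩ := isCompact_Icc.exists_bound_of_continuousOn (f := φ)
    (s := Icc (-((B.card + |area H| * (3 * X + 1) ^ 2) / sqrt (X / 2))) ((B.card + |area H| * (3 * X + 1) ^ 2) / sqrt (X / 2)))
    hφ.continuousOn
  refine tendsto_integral_of_dominated_convergence (fun _ => M) (fun j => ?_) ?_ (fun j => ?_) ?_
  · exact (((G_meas H hφ _).comp (measurable_id.add_const _)).indicator measurableSet_Icc).aestronglyMeasurable
  · exact integrableOn_const (by rw [Real.volume_Icc]; exact ENNReal.ofReal_ne_top)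
  · refine (ae_restrict_iff' measurableSet_Icc).2 (Eventually.of_forall fun R hR => ?_)
    refine (norm_indicator_le_norm_self _ _).trans ?_
    have h3 := ht2 j
    have h4 := ht0 j
    have hR1 := hR.1
    have hR2 := hR.2
    simp only [G]
    refine hM _ (abs_le.1 ?_)
    rw [abs_div, abs_of_nonneg (Real.sqrt_nonneg _)]
    refine div_le_div₀ (by positivity) ?_ (Real.sqrt_pos.2 (by linarith)) (Real.sqrt_le_sqrt (by linarith))
    refine (abs_sub _ _).trans (add_le_add ?_ ?_)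
    · rw [cntc_eq (B := B) fun k hk => hB _ (hdK1 j) (hdK2 j) _ (by rw [abs_le]; constructor <;> linarith) k hk,
        abs_of_nonneg (Finset.sum_nonneg fun k _ => by split_ifs <;> norm_num), Finset.sum_boole]
      exact_mod_cast Finset.card_filter_le _ _
    · rw [abs_mul, abs_pow]
      refine mul_le_mul_of_nonneg_left (pow_le_pow_left₀ (abs_nonneg _) ?_ 2) (abs_nonneg _)
      rw [abs_le]
      constructor <;> linarith
  · have hfin : ∀ᵐ R : ℝ, R ∉ ({X, 2 * X} : Set ℝ) := by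
      rw [ae_iff]
      simp only [not_not]
      exact (Set.toFinite ({X, 2 * X} : Set ℝ)).measure_zero _
    filter_upwards [ae_restrict_of_ae hfin, ae_restrict_mem measurableSet_Icc] with R hR hRI
    have hR1 := hRI.1
    have hR2 := hRI.2
    simp only [mem_insert_iff, mem_singleton_iff, not_or] at hR
    have hlim : Tendsto (fun j => G H φ (((d j).1 : ℝ), ((d j).2 : ℝ)) (R + t j)) atTop (𝓝 (G H φ c R)) := by
      have h1 := cntc_lim (H := H) (c := c) (d := fun j => (((d j).1 : ℝ), ((d j).2 : ℝ))) htt hd hd1 hd2 hB hc1 hc2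
        hdK1 hdK2 (R := R) (by rw [abs_le]; constructor <;> linarith)
        (fun j => by
          have h3 := ht2 j
          have h4 := ht0 j
          rw [abs_le]
          constructor <;> linarith)
      have h2 : Tendsto (fun j => R + t j) atTop (𝓝 R) := by
        have := (tendsto_const_nhds (x := R)).add htt
        rwa [add_zero] at this
      exact (hφ.tendsto _).comp ((h1.sub ((h2.pow 2).const_mul _)).div ((Real.continuous_sqrt.tendsto R).comp h2)
        (Real.sqrt_pos.2 (by linarith)).ne')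
    rcases lt_or_gt_of_ne hR.1 with h | h
    · -- `R < X`
      rw [indicator_of_notMem (fun h' => absurd h'.1 (not_le.2 h))]
      refine tendsto_const_nhds.congr' ?_
      have h1 : Tendsto (fun j => X - t j) atTop (𝓝 (X - 0)) := tendsto_const_nhds.sub htt
      rw [sub_zero] at h1
      filter_upwards [h1.eventually_const_lt h] with j hj
      rw [indicator_of_notMem]
      intro h'
      have := h'.1
      have := hq1 j
      linarith
    · rcases lt_or_gt_of_ne hR.2 with h' | h'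
      · -- `X < R < 2 * X`
        rw [indicator_of_mem (show R ∈ Icc X (2 * X) from ⟨h.le, h'.le⟩)]
        refine hlim.congr' ?_
        have h1 : Tendsto (fun j => 2 * X - t j) atTop (𝓝 (2 * X - 0)) := tendsto_const_nhds.sub htt
        rw [sub_zero] at h1
        filter_upwards [h1.eventually_const_lt h'] with j hj
        rw [indicator_of_mem]
        have h2 := hq1 j
        have h3 := hq2 j
        exact ⟨by linarith, by linarith⟩
      · -- `2 * X < R`
        rw [indicator_of_notMem (fun h'' => absurd h''.2 (not_le.2 h'))]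
        refine tendsto_const_nhds.congr' ?_
        have h1 : Tendsto (fun j => 2 * X + t j) atTop (𝓝 (2 * X + 0)) := tendsto_const_nhds.add htt
        rw [add_zero] at h1
        filter_upwards [h1.eventually_lt_const h'] with j hj
        rw [indicator_of_notMem]
        intro h''
        have := h''.2
        have := hq2 j
        linarith

/-- W3a: rational centres and radii are enough -/
theorem rat_limF {H : ℝ → ℝ} (hH : ContDiff ℝ 2 H) (hp : Function.Periodic H (2 * π)) (hrho : ∀ θ, 0 < H θ + deriv (deriv H) θ)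
    {φ : ℝ → ℝ} (hφ : Continuous φ) :
    LimF H φ ↔
    (∀ n : ℕ, ∃ X₀ : ℕ, ∀ X Y : ℚ, ((X₀ : ℚ) + 1 ≤ X) → ((X₀ : ℚ) + 1 ≤ Y) → ∀ c d : ℚ × ℚ,
      |(X : ℝ)⁻¹ * (∫ R in Icc (X : ℝ) (2 * X), φ ((cntc H ((c.1 : ℝ), (c.2 : ℝ)) R - area H * R ^ 2) / sqrt R)) -
        (Y : ℝ)⁻¹ * (∫ R in Icc (Y : ℝ) (2 * Y), φ ((cntc H ((d.1 : ℝ), (d.2 : ℝ)) R - area H * R ^ 2) / sqrt R))| ≤ 1 / ((n : ℝ) + 1)) := by
  constructor
  · rintro ⟨m, hm⟩ n
    obtain ⟨X₀, -, h⟩ := hm (1 / (2 * ((n : ℝ) + 1))) (by positivity)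
    obtain ⟨N, hN⟩ := exists_nat_ge X₀
    refine ⟨N, fun X Y hX hY c d => ?_⟩
    have hX' : (N : ℝ) + 1 ≤ X := by exact_mod_cast hX
    have hY' : (N : ℝ) + 1 ≤ Y := by exact_mod_cast hY
    have h1 := abs_le.1 (h X (by linarith) ((c.1 : ℝ), (c.2 : ℝ)))
    have h2 := abs_le.1 (h Y (by linarith) ((d.1 : ℝ), (d.2 : ℝ)))
    have h3 : 1 / ((n : ℝ) + 1) = 1 / (2 * ((n : ℝ) + 1)) + 1 / (2 * ((n : ℝ) + 1)) := by field_simp; norm_num
    rw [h3, abs_le]
    constructor <;> linarith [h1.1, h1.2, h2.1, h2.2]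
  · intro h
    set M : ℝ → ℝ × ℝ → ℝ := fun X c => X⁻¹ * ∫ R in Icc X (2 * X), G H φ c R with hM
    have h' : ∀ n : ℕ, ∃ X₀ : ℕ, ∀ X Y : ℚ, ((X₀ : ℚ) + 1 ≤ X) → ((X₀ : ℚ) + 1 ≤ Y) → ∀ c d : ℚ × ℚ,
        |M X ((c.1 : ℝ), (c.2 : ℝ)) - M Y ((d.1 : ℝ), (d.2 : ℝ))| ≤ 1 / ((n : ℝ) + 1) := h
    have hcau : CauchySeq (fun k : ℕ => M k (0, 0)) := by
      rw [Metric.cauchySeq_iff]
      intro ε hε
      obtain ⟨n, hn⟩ := exists_nat_one_div_lt hε
      obtain ⟨X₀, hX₀⟩ := h' n
      refine ⟨X₀ + 1, fun a ha b hb => ?_⟩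
      have h1 := hX₀ a b (by exact_mod_cast ha) (by exact_mod_cast hb) (0, 0) (0, 0)
      rw [Real.dist_eq]
      refine lt_of_le_of_lt ?_ hn
      simpa using h1
    obtain ⟨m, hm⟩ := cauchySeq_tendsto_of_complete hcau
    refine ⟨m, fun ε hε => ?_⟩
    obtain ⟨n, hn⟩ := exists_nat_one_div_lt hε
    obtain ⟨X₀, hX₀⟩ := h' n
    have hrat : ∀ X : ℚ, ((X₀ : ℚ) + 1 ≤ X) → ∀ c : ℚ × ℚ, |M X ((c.1 : ℝ), (c.2 : ℝ)) - m| ≤ 1 / ((n : ℝ) + 1) := by
      intro X hX c
      have h1 : Tendsto (fun k : ℕ => |M X ((c.1 : ℝ), (c.2 : ℝ)) - M k (0, 0)|) atTop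
          (𝓝 |M X ((c.1 : ℝ), (c.2 : ℝ)) - m|) := (tendsto_const_nhds.sub hm).abs
      refine le_of_tendsto h1 ?_
      filter_upwards [eventually_ge_atTop (X₀ + 1)] with k hk
      have h2 := hX₀ X k hX (by exact_mod_cast hk) c (0, 0)
      simpa using h2
    refine ⟨X₀ + 1, by linarith [(Nat.cast_nonneg X₀ : (0 : ℝ) ≤ X₀)], fun X hX c => ?_⟩
    have hX1 : 1 ≤ X := by linarith [(Nat.cast_nonneg X₀ : (0 : ℝ) ≤ X₀)]
    obtain ⟨q, d, hq, hlim⟩ := approx hH hp hrho hφ hX1 c
    have h1 : Tendsto (fun j => |M (q j) (((d j).1 : ℝ), ((d j).2 : ℝ)) - m|) atTop (𝓝 |M X c - m|) :=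
      (hlim.sub_const m).abs
    refine (le_of_tendsto h1 (Eventually.of_forall fun j => ?_)).trans hn.le
    refine hrat (q j) ?_ (d j)
    have := hq j
    have h3 : ((X₀ : ℝ) + 1) ≤ q j := by linarith
    exact_mod_cast h3

end Pool.Agent.Helper43.LW
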